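import Pool.Agent.Helper68.Ric.SCUb

/-! Module SCU: the sums of the zeros near a cusp. Only the input ST_CL is needed. -/

set_option autoImplicit false

open scoped ContDiff Manifold Topology MatrixGroups
open Complex

noncomputable section

namespace RicP

lemma scu_logq (N : ℕ) (hN : N ≠ 0) (q : ℂ) (hq : q ≠ 0) (hq1 : ‖q‖ < 1) :
    0 < ((N : ℂ) * Complex.log q / (2 * Real.pi * I)).im ∧
    exp (2 * Real.pi * I * ((N : ℂ) * Complex.log q / (2 * Real.pi * I)) / N) = q := by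
  have hN0 : (N : ℂ) ≠ 0 := by exact_mod_cast hN
  have hpi : (2 * Real.pi * I : ℂ) ≠ 0 := Complex.two_pi_I_ne_zero
  constructor
  · have hpi2 : (Real.pi : ℂ) ≠ 0 := by exact_mod_cast Real.pi_ne_zero
    have e : (N : ℂ) * Complex.log q / (2 * Real.pi * I)
        = ((N / (2 * Real.pi) : ℝ) : ℂ) * (-I * Complex.log q) := by
      push_cast
      rw [div_eq_iff hpi]
      have : (N : ℂ) / (2 * Real.pi) * (-I * Complex.log q) * (2 * Real.pi * I)
        = (N : ℂ) * Complex.log q * (-(I * I)) * (2 * Real.pi / (2 * Real.pi)) := by ring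
      rw [this, Complex.I_mul_I, div_self (by simp [hpi2])]
      ring
    rw [e, Complex.im_ofReal_mul]
    have h1 : (-I * Complex.log q).im = -Real.log ‖q‖ := by
      rw [Complex.mul_im]
      simp [Complex.log_re]
    rw [h1]
    have h2 : Real.log ‖q‖ < 0 := Real.log_neg (norm_pos_iff.2 hq) hq1
    have h3 : (0 : ℝ) < N := by exact_mod_cast Nat.pos_of_ne_zero hN
    have := Real.pi_pos
    have h4 : 0 < (N : ℝ) / (2 * Real.pi) := by positivity
    nlinarith
  · have e : 2 * Real.pi * I * ((N : ℂ) * Complex.log q / (2 * Real.pi * I)) / N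
        = Complex.log q := by
      field_simp
    rw [e, Complex.exp_log hq]

lemma scu_logz (Z : ℂ) (hZ : Z ≠ 0) :
    exp (2 * Real.pi * I * (Complex.log Z / (2 * Real.pi * I))) = Z := by
  have hpi : (2 * Real.pi * I : ℂ) ≠ 0 := Complex.two_pi_I_ne_zero
  rw [mul_div_cancel₀ _ hpi, Complex.exp_log hZ]

/-- multiplicity in the coordinates `q, w` of the component `κ` -/
def scuNu {M : ModData} {N : ℕ} {t : ℝ} (D : DivData M N t) (c : Cusp M N) (κ : ℕ) (q w : ℂ) : ℕ :=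
  D.μ (cout M c) ((N : ℂ) * Complex.log q / (2 * Real.pi * I),
    Complex.log (q ^ (κ : ℤ) * w) / (2 * Real.pi * I))

variable {M : ModData} {N : ℕ} {t : ℝ}

lemma scu_nu_eq (hN : NOK N) (D : DivData M N t) (c : Cusp M N) (κ : ℕ) (q w : ℂ) (hq : q ≠ 0)
    (hq1 : ‖q‖ < 1) (hw : w ≠ 0) (P : ℕ → Prop)
    (h : ∀ τ z : ℂ, 0 < τ.im → exp (2 * Real.pi * I * τ / N) = q →
        exp (2 * Real.pi * I * z) = q ^ (κ : ℤ) * w → P (D.μ (cout M c) (τ, z))) :
    P (scuNu D c κ q w) := by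
  have hN0 : N ≠ 0 := by have := hN.2; omega
  obtain ⟨h1, h2⟩ := scu_logq N hN0 q hq hq1
  exact h _ _ h1 h2 (scu_logz _ (mul_ne_zero (zpow_ne_zero _ hq) hw))

lemma scu_ball_one (w₀ : ℂ) : ∀ᶠ p : E in 𝓝 ((0 : ℂ), w₀), ‖p.1‖ < 1 := by
  have hc : Continuous (fun p : E => ‖p.1‖) := by fun_prop
  have : (fun p : E => ‖p.1‖) ((0 : ℂ), w₀) < 1 := by simp
  exact hc.continuousAt.eventually_lt continuousAt_const this

/-- away from `q = 0` the multiplicity is the order of the local equation -/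
lemma scu_hloc (hN : NOK N) (D : DivData M N t) (c : Cusp M N) (κ : ℕ) (w₀ : ℂ) (hw₀ : w₀ ≠ 0) :
    ∃ V : Set E, IsOpen V ∧ ((0 : ℂ), w₀) ∈ V ∧ ∃ g : E → ℂ, DifferentiableOn ℂ g V ∧
      (∀ q w, (q, w) ∈ V → q ≠ 0 → scuNu D c κ q w = analyticOrderNatAt (fun z => g (q, z)) w) ∧
      analyticOrderAt (fun z => g (0, z)) w₀ ≠ ⊤ := by
  obtain ⟨V, hV, h0, g, hg, hμ, hord⟩ := scu_local hN D c (κ : ℤ) w₀ hw₀
  have hO : IsOpen {p : E | ‖p.1‖ < 1} := isOpen_lt (by fun_prop) (by fun_prop)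
  refine ⟨V ∩ {p | ‖p.1‖ < 1}, hV.inter hO, ⟨h0, by simp⟩, g, hg.mono Set.inter_subset_left,
    ?_, hord⟩
  rintro q w ⟨hqw, hq1⟩ hq
  obtain ⟨hw, hh⟩ := hμ q w hqw
  exact scu_nu_eq hN D c κ q w hq hq1 hw
    (fun n => n = analyticOrderNatAt (fun z => g (q, z)) w) hh

/-- uniqueness of the multiplicity near the special fibre -/
lemma scu_unif (hN : NOK N) (D : DivData M N t) (c : Cusp M N) (κ : ℕ) (w₀ : ℂ) (hw₀ : w₀ ≠ 0) :
    ∀ᶠ p : E in 𝓝 ((0 : ℂ), w₀), p.1 ≠ 0 → ∀ τ z : ℂ, 0 < τ.im →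
      exp (2 * Real.pi * I * τ / N) = p.1 → exp (2 * Real.pi * I * z) = p.1 ^ (κ : ℤ) * p.2 →
      D.μ (cout M c) (τ, z) = scuNu D c κ p.1 p.2 := by
  obtain ⟨V, hV, h0, g, hg, hμ, hord⟩ := scu_local hN D c (κ : ℤ) w₀ hw₀
  filter_upwards [hV.mem_nhds h0, scu_ball_one w₀] with p hp hp1 hq τ z hτ h1 h2
  obtain ⟨hw, hh⟩ := hμ p.1 p.2 hp
  rw [hh τ z hτ h1 h2]
  exact (scu_nu_eq hN D c κ p.1 p.2 hq hp1 hw
    (fun n => n = analyticOrderNatAt (fun z => g (p.1, z)) p.2) hh).symm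

lemma scu_bd_small (hN : NOK N) (D : DivData M N t) (c : Cusp M N) (κ : ℕ) (r : ℝ)
    (hnode : ∀ (j : ℤ) (τ z Y : ℂ), 0 < τ.im → Y ≠ 0 →
      exp (2 * Real.pi * I * z) = exp (2 * Real.pi * I * τ / N) ^ j * Y → ‖Y‖ < r →
      ‖exp (2 * Real.pi * I * τ / N) / Y‖ < r → D.μ (cout M c) (τ, z) = 0)
    (w₀ : ℂ) (hw₀ : w₀ ≠ 0) (hr : 0 < r) (h : ‖w₀‖ < r) :
    ∀ᶠ p : E in 𝓝 ((0 : ℂ), w₀), p.1 ≠ 0 → scuNu D c κ p.1 p.2 = 0 := by
  have e1 : ∀ᶠ p : E in 𝓝 ((0 : ℂ), w₀), p.2 ≠ 0 := by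
    have hc : Continuous (fun p : E => p.2) := by fun_prop
    exact hc.continuousAt.eventually_ne hw₀
  have e2 : ∀ᶠ p : E in 𝓝 ((0 : ℂ), w₀), ‖p.2‖ < r := by
    have hc : Continuous (fun p : E => ‖p.2‖) := by fun_prop
    exact hc.continuousAt.eventually_lt continuousAt_const h
  have e3 : ∀ᶠ p : E in 𝓝 ((0 : ℂ), w₀), ‖p.1 / p.2‖ < r := by
    have hc : ContinuousAt (fun p : E => ‖p.1 / p.2‖) ((0 : ℂ), w₀) := by
      refine ContinuousAt.norm ?_
      exact ContinuousAt.div (by fun_prop) (by fun_prop) hw₀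
    refine hc.eventually_lt continuousAt_const ?_
    simpa using hr
  filter_upwards [e1, e2, e3, scu_ball_one w₀] with p h1 h2 h3 h4 hq
  refine scu_nu_eq hN D c κ p.1 p.2 hq h4 h1 (fun n => n = 0) ?_
  intro τ z hτ hqe hz
  refine hnode (κ : ℤ) τ z p.2 hτ h1 ?_ h2 ?_
  · rw [hz, hqe]
  · rw [hqe]; exact h3

lemma scu_bd_large (hN : NOK N) (D : DivData M N t) (c : Cusp M N) (κ : ℕ) (r : ℝ)
    (hnode : ∀ (j : ℤ) (τ z Y : ℂ), 0 < τ.im → Y ≠ 0 →
      exp (2 * Real.pi * I * z) = exp (2 * Real.pi * I * τ / N) ^ j * Y → ‖Y‖ < r →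
      ‖exp (2 * Real.pi * I * τ / N) / Y‖ < r → D.μ (cout M c) (τ, z) = 0)
    (w₀ : ℂ) (hw₀ : w₀ ≠ 0) (hr : 0 < r) (h : ‖w₀⁻¹‖ < r) :
    ∀ᶠ p : E in 𝓝 ((0 : ℂ), w₀), p.1 ≠ 0 → scuNu D c κ p.1 p.2 = 0 := by
  have e1 : ∀ᶠ p : E in 𝓝 ((0 : ℂ), w₀), p.2 ≠ 0 := by
    have hc : Continuous (fun p : E => p.2) := by fun_prop
    exact hc.continuousAt.eventually_ne hw₀
  have e2 : ∀ᶠ p : E in 𝓝 ((0 : ℂ), w₀), ‖p.1 * p.2‖ < r := by
    have hc : Continuous (fun p : E => ‖p.1 * p.2‖) := by fun_prop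
    refine hc.continuousAt.eventually_lt continuousAt_const ?_
    simpa using hr
  have e3 : ∀ᶠ p : E in 𝓝 ((0 : ℂ), w₀), ‖p.2⁻¹‖ < r := by
    have hc : ContinuousAt (fun p : E => ‖p.2⁻¹‖) ((0 : ℂ), w₀) := by
      refine ContinuousAt.norm ?_
      exact ContinuousAt.inv₀ (by fun_prop) hw₀
    exact hc.eventually_lt continuousAt_const h
  filter_upwards [e1, e2, e3, scu_ball_one w₀] with p h1 h2 h3 h4 hq
  refine scu_nu_eq hN D c κ p.1 p.2 hq h4 h1 (fun n => n = 0) ?_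
  intro τ z hτ hqe hz
  refine hnode ((κ : ℤ) - 1) τ z (p.1 * p.2) hτ (mul_ne_zero hq h1) ?_ h2 ?_
  · rw [hz, hqe, zpow_sub_one₀ hq]
    field_simp
  · rw [hqe]
    have : p.1 / (p.1 * p.2) = p.2⁻¹ := by field_simp
    rw [this]; exact h3

theorem st_SCU (hCL : ST_CL) : ST_SCU := by
  intro M N hN t D c
  classical
  have hNpos : N ≠ 0 := by have := hN.2; omega
  have hNpos' : 0 < N := Nat.pos_of_ne_zero hNpos
  have hNR : (0 : ℝ) < N := by exact_mod_cast hNpos'
  have hNC : (N : ℂ) ≠ 0 := by exact_mod_cast hNpos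
  have hpi : (2 * Real.pi * I : ℂ) ≠ 0 := Complex.two_pi_I_ne_zero
  obtain ⟨r, hr, hr1, hnode⟩ := scu_node hN D c
  set A : Set ℂ := {w : ℂ | r / 2 ≤ ‖w‖ ∧ ‖w‖ ≤ 2 / r} with hAdef
  have hA : IsCompact A := by
    have h1 : A = Metric.closedBall 0 (2 / r) ∩ {w | r / 2 ≤ ‖w‖} := by
      ext w
      simp only [hAdef, Set.mem_ofPred_eq, Set.mem_inter_iff, Metric.mem_closedBall, dist_zero_right]
      tauto
    rw [h1]
    exact (isCompact_closedBall _ _).inter_right (isClosed_le (by fun_prop) (by fun_prop))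
  have hA0 : ∀ w ∈ A, w ≠ 0 := by
    intro w hw h0
    rw [h0] at hw
    have := hw.1
    rw [norm_zero] at this
    linarith
  have hAi : ∀ w ∈ A, w ∉ interior A → ‖w‖ < r ∨ ‖w⁻¹‖ < r := by
    intro w hw hni
    by_contra hcon
    push Not at hcon
    apply hni
    have hO : IsOpen {w : ℂ | r / 2 < ‖w‖ ∧ ‖w‖ < 2 / r} :=
      (isOpen_lt (f := fun _ : ℂ => r / 2) (g := fun w : ℂ => ‖w‖) continuous_const
        continuous_norm).inter
        (isOpen_lt (f := fun w : ℂ => ‖w‖) (g := fun _ : ℂ => 2 / r) continuous_norm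
        continuous_const)
    refine mem_interior.2 ⟨_, ?_, hO, ?_⟩
    · rintro x ⟨h1, h2⟩
      exact ⟨h1.le, h2.le⟩
    · have hwpos : 0 < ‖w‖ := norm_pos_iff.2 (hA0 w hw)
      refine ⟨by linarith [hcon.1], ?_⟩
      have h2 := hcon.2
      rw [norm_inv, le_inv_comm₀ hr hwpos] at h2
      refine lt_of_le_of_lt h2 ?_
      rw [inv_eq_one_div]
      exact div_lt_div_of_pos_right (by norm_num) hr
  have hclu := fun κ : ℕ => scu_cluster hCL A hA hA0 (scuNu D c κ)
    (fun w₀ hw₀ => scu_hloc hN D c κ w₀ (hA0 w₀ hw₀)) (fun w₀ hw₀ hni => by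
      rcases hAi w₀ hw₀ hni with h | h
      · exact scu_bd_small hN D c κ r hnode w₀ (hA0 w₀ hw₀) hr h
      · exact scu_bd_large hN D c κ r hnode w₀ (hA0 w₀ hw₀) hr h)
  choose δ hδ n B ℓ hℓ hB hF using hclu
  have hun : ∀ κ : ℕ, ∀ᶠ q in 𝓝 (0 : ℂ), ∀ w ∈ A, q ≠ 0 → ∀ τ z : ℂ, 0 < τ.im →
      exp (2 * Real.pi * I * τ / N) = q → exp (2 * Real.pi * I * z) = q ^ (κ : ℤ) * w →
      D.μ (cout M c) (τ, z) = scuNu D c κ q w := by
    intro κ
    refine hA.eventually_forall_of_forall_eventually (P := fun q w => q ≠ 0 → ∀ τ z : ℂ,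
      0 < τ.im → exp (2 * Real.pi * I * τ / N) = q →
      exp (2 * Real.pi * I * z) = q ^ (κ : ℤ) * w →
      D.μ (cout M c) (τ, z) = scuNu D c κ q w) ?_
    intro w₀ hw₀
    exact scu_unif hN D c κ w₀ (hA0 w₀ hw₀)
  -- common radius
  have hδ₀ : ∃ δ₀ > 0, δ₀ ≤ 1 ∧ δ₀ ≤ r ^ 2 / 4 ∧ ∀ q : ℂ, ‖q‖ < δ₀ → ∀ κ < N, ‖q‖ < δ κ ∧
      ∀ w ∈ A, q ≠ 0 → ∀ τ z : ℂ, 0 < τ.im →
      exp (2 * Real.pi * I * τ / N) = q → exp (2 * Real.pi * I * z) = q ^ (κ : ℤ) * w →
      D.μ (cout M c) (τ, z) = scuNu D c κ q w := by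
    have hev : ∀ᶠ q in 𝓝 (0 : ℂ), ∀ κ ∈ Set.Iio N, ‖q‖ < δ κ ∧
      ∀ w ∈ A, q ≠ 0 → ∀ τ z : ℂ, 0 < τ.im →
      exp (2 * Real.pi * I * τ / N) = q → exp (2 * Real.pi * I * z) = q ^ (κ : ℤ) * w →
      D.μ (cout M c) (τ, z) = scuNu D c κ q w := by
      rw [Filter.eventually_all_finite (Set.finite_Iio N)]
      intro κ _
      have h1 : ∀ᶠ q in 𝓝 (0 : ℂ), ‖q‖ < δ κ := by
        have hc : Continuous (fun q : ℂ => ‖q‖) := by fun_prop
        refine hc.continuousAt.eventually_lt continuousAt_const ?_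
        simpa using hδ κ
      exact h1.and (hun κ)
    obtain ⟨δ₁, hδ₁, hb⟩ := Metric.eventually_nhds_iff_ball.1 hev
    refine ⟨min δ₁ (min 1 (r ^ 2 / 4)), by positivity, ?_, ?_, ?_⟩
    · exact (min_le_right _ _).trans (min_le_left _ _)
    · exact (min_le_right _ _).trans (min_le_right _ _)
    · intro q hq κ hκ
      refine hb q ?_ κ hκ
      rw [Metric.mem_ball, dist_zero_right]
      exact lt_of_lt_of_le hq (min_le_left _ _)
  obtain ⟨δ₀, hδ₀, hδ₀1, hδ₀r, hδq⟩ := hδ₀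
  have hbd : ∀ q : ℂ, ‖q‖ < δ₀ → DifferentiableAt ℂ
      (fun q => ∑ κ ∈ Finset.range N, B κ q / (2 * Real.pi * I)) q := by
    intro q hq
    refine DifferentiableAt.fun_sum ?_
    intro κ hκ
    refine DifferentiableAt.div_const ?_ _
    refine (hB κ).differentiableAt (Metric.isOpen_ball.mem_nhds ?_)
    rw [Metric.mem_ball, dist_zero_right]
    exact (hδq q hq κ (Finset.mem_range.1 hκ)).1
  refine ⟨((∑ κ ∈ Finset.range N, n κ * κ : ℕ) : ℤ),
    fun q => ∑ κ ∈ Finset.range N, B κ q / (2 * Real.pi * I),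
    -(N * Real.log δ₀ / (2 * Real.pi)), hbd 0 (by simpa using hδ₀), ?_, ?_⟩
  · have hc : Continuous (fun q : ℂ => ‖q‖) := by fun_prop
    have : ∀ᶠ q in 𝓝 (0 : ℂ), ‖q‖ < δ₀ := by
      refine hc.continuousAt.eventually_lt continuousAt_const ?_
      simpa using hδ₀
    filter_upwards [this] with q hq
    exact hbd q hq
  · intro τ hτY hτ
    set q : ℂ := exp (2 * Real.pi * I * τ / N) with hq
    have hq0 : q ≠ 0 := Complex.exp_ne_zero _
    have hqpos : 0 < ‖q‖ := norm_pos_iff.2 hq0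
    have hqn : ‖q‖ < δ₀ := by
      rw [hq, Complex.norm_exp]
      have e : (2 * Real.pi * I * τ / N).re = -(2 * Real.pi * τ.im / N) := by
        have : (2 * Real.pi * I * τ / N : ℂ) = ((2 * Real.pi / N : ℝ) : ℂ) * (I * τ) := by
          push_cast
          ring
        rw [this, Complex.re_ofReal_mul]
        simp
        ring
      rw [e, ← Real.lt_log_iff_exp_lt hδ₀]
      have := Real.pi_pos
      rw [neg_lt, lt_div_iff₀ hNR]
      rw [← sub_pos] at hτY ⊢
      have h2 : 2 * Real.pi * τ.im - -Real.log δ₀ * N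
        = 2 * Real.pi * (τ.im - -(N * Real.log δ₀ / (2 * Real.pi))) := by
        field_simp
      rw [h2]
      positivity
    have hq1 : ‖q‖ < 1 := lt_of_lt_of_le hqn hδ₀1
    have hqr : ‖q‖ < r ^ 2 / 4 := lt_of_lt_of_le hqn hδ₀r
    have hqN : exp (2 * Real.pi * I * τ) = q ^ (N : ℤ) := by
      rw [hq, ← Complex.exp_int_mul]
      congr 1
      push_cast
      field_simp
    -- the zeros
    have hF' : ∀ κ : ℕ, ∃ F : Finset ℂ, κ < N → ((∀ w, w ∈ F ↔ w ∈ A ∧ scuNu D c κ q w ≠ 0) ∧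
        ∑ w ∈ F, scuNu D c κ q w = n κ ∧
        ∑ w ∈ F, (scuNu D c κ q w : ℂ) * ℓ κ w = B κ q) := by
      intro κ
      by_cases hκ : κ < N
      · obtain ⟨F, hF⟩ := hF κ q (by
          rw [Metric.mem_ball, dist_zero_right]
          exact (hδq q hqn κ hκ).1) hq0
        exact ⟨F, fun _ => hF⟩
      · exact ⟨∅, fun h => absurd h hκ⟩
    choose F hF using hF'
    let zz : (Σ _ : ℕ, ℂ) → ℂ := fun p => (p.1 : ℂ) / N * τ + ℓ p.1 p.2 / (2 * Real.pi * I)
    let Φ : (Σ _ : ℕ, ℂ) → ℂ ⧸ latt τ := fun p => ((zz p : ℂ) : ℂ ⧸ latt τ)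
    let S : Finset (Σ _ : ℕ, ℂ) := (Finset.range N).sigma F
    have hexpz : ∀ p : (Σ _ : ℕ, ℂ), p.2 ≠ 0 →
        exp (2 * Real.pi * I * zz p) = q ^ (p.1 : ℤ) * p.2 := by
      intro p hp
      have e : 2 * Real.pi * I * zz p = ((p.1 : ℤ) : ℂ) * (2 * Real.pi * I * τ / N) + ℓ p.1 p.2 := by
        simp only [zz]
        push_cast
        field_simp
      rw [e, Complex.exp_add, hℓ p.1 p.2 hp, Complex.exp_int_mul]
    have hSm : ∀ p, p ∈ S ↔ p.1 < N ∧ p.2 ∈ A ∧ scuNu D c p.1 q p.2 ≠ 0 := by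
      intro p
      simp only [S, Finset.mem_sigma, Finset.mem_range]
      constructor
      · rintro ⟨h1, h2⟩
        exact ⟨h1, ((hF p.1 h1).1 p.2).1 h2⟩
      · rintro ⟨h1, h2⟩
        exact ⟨h1, ((hF p.1 h1).1 p.2).2 h2⟩
    have hmu : ∀ p ∈ S, D.μ (cout M c) (τ, Quotient.out (Φ p)) = scuNu D c p.1 q p.2 := by
      intro p hp
      obtain ⟨h1, h2, h3⟩ := (hSm p).1 hp
      rw [scu_out D _ τ (zz p) hτ]
      exact (hδq q hqn p.1 h1).2 p.2 h2 hq0 τ (zz p) hτ rfl (hexpz p (hA0 _ h2))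
    have hbij : Set.BijOn Φ (S : Set (Σ _ : ℕ, ℂ))
        {x | D.μ (cout M c) (τ, Quotient.out x) ≠ 0} := by
      refine ⟨?_, ?_, ?_⟩
      · intro p hp
        show D.μ (cout M c) (τ, Quotient.out (Φ p)) ≠ 0
        rw [hmu p hp]
        exact ((hSm p).1 hp).2.2
      · intro p hp p' hp' heq
        obtain ⟨h1, h2, h3⟩ := (hSm p).1 hp
        obtain ⟨h1', h2', h3'⟩ := (hSm p').1 hp'
        have hl : -zz p + zz p' ∈ latt τ := QuotientAddGroup.eq.1 heq
        obtain ⟨m, k, hmk⟩ := hl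
        have hz' : zz p' = zz p + m * τ + k := by
          rw [add_assoc, ← hmk]; ring
        have he : q ^ (p'.1 : ℤ) * p'.2 = q ^ (p.1 : ℤ) * p.2 * q ^ ((N : ℤ) * m) := by
          rw [← hexpz p (hA0 _ h2), ← hexpz p' (hA0 _ h2'), hz', zpow_mul, ← hqN,
            ← Complex.exp_int_mul, ← Complex.exp_add]
          have : 2 * Real.pi * I * (zz p + m * τ + k) = (2 * Real.pi * I * zz p +
            (m : ℂ) * (2 * Real.pi * I * τ)) + k * (2 * Real.pi * I) := by ring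
          rw [this, Complex.exp_add _ ((k : ℂ) * (2 * Real.pi * I)), Complex.exp_int_mul_two_pi_mul_I,
            mul_one]
        have hw0 : p.2 ≠ 0 := hA0 _ h2
        have hw0' : p'.2 ≠ 0 := hA0 _ h2'
        have hn0 : 0 < ‖p.2‖ := norm_pos_iff.2 hw0
        have hn0' : 0 < ‖p'.2‖ := norm_pos_iff.2 hw0'
        have hratio : q ^ ((p'.1 : ℤ) - p.1 - N * m) = p.2 / p'.2 := by
          rw [zpow_sub₀ hq0, zpow_sub₀ hq0]
          have := zpow_ne_zero (p.1 : ℤ) hq0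
          have := zpow_ne_zero ((N : ℤ) * m) hq0
          field_simp
          rw [he]
          ring
        have hnr : ‖q‖ ^ ((p'.1 : ℤ) - p.1 - N * m) = ‖p.2‖ / ‖p'.2‖ := by
          rw [← norm_zpow, hratio, norm_div]
        have hup : ‖p.2‖ / ‖p'.2‖ ≤ 4 / r ^ 2 := by
          rw [div_le_div_iff₀ hn0' (by positivity)]
          have a1 := h2.2
          have a2 := h2'.1
          rw [le_div_iff₀ hr] at a1
          nlinarith [mul_le_mul a1 a2 (by positivity) (by norm_num), mul_pos hr hr]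
        have hlo : r ^ 2 / 4 ≤ ‖p.2‖ / ‖p'.2‖ := by
          rw [div_le_div_iff₀ (by norm_num) hn0']
          have a1 := h2'.2
          have a2 := h2.1
          rw [le_div_iff₀ hr] at a1
          nlinarith [mul_le_mul a1 a2 (by positivity) (by norm_num), mul_pos hr hr]
        have hez : (p'.1 : ℤ) - p.1 - N * m = 0 := by
          by_contra hne
          rcases lt_or_gt_of_ne hne with hlt | hgt
          · have b1 : ‖q‖ ^ (-1 : ℤ) ≤ ‖q‖ ^ ((p'.1 : ℤ) - p.1 - N * m) :=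
              zpow_le_zpow_right_of_le_one₀ hqpos hq1.le (by omega)
            rw [hnr] at b1
            have b2 := b1.trans hup
            rw [zpow_neg_one, inv_le_comm₀ hqpos (by positivity), inv_div] at b2
            linarith
          · have b1 : ‖q‖ ^ ((p'.1 : ℤ) - p.1 - N * m) ≤ ‖q‖ ^ (1 : ℤ) :=
              zpow_le_zpow_right_of_le_one₀ hqpos hq1.le (by omega)
            rw [hnr, zpow_one] at b1
            linarith
        have hm : m = 0 := by
          by_contra hne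
          have c1 : |(N : ℤ) * m| < N := by
            have : (N : ℤ) * m = (p'.1 : ℤ) - p.1 := by linarith
            rw [this, abs_lt]
            constructor <;> omega
          rw [abs_mul] at c1
          have c2 : 1 ≤ |m| := Int.one_le_abs hne
          have c3 : |(N : ℤ)| = N := abs_of_nonneg (by positivity)
          rw [c3] at c1
          nlinarith [(by exact_mod_cast hNpos' : (0 : ℤ) < N)]
        rw [hm] at hez
        have hk : p'.1 = p.1 := by omega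
        rw [hk, hm, mul_zero, zpow_zero, mul_one] at he
        have hw : p'.2 = p.2 := mul_left_cancel₀ (zpow_ne_zero _ hq0) he
        exact Sigma.ext hk.symm (heq_of_eq hw.symm)
      · intro x hx
        have hx : D.μ (cout M c) (τ, Quotient.out x) ≠ 0 := hx
        set z : ℂ := Quotient.out x with hz
        have hxz : ((z : ℂ) : ℂ ⧸ latt τ) = x := Quotient.out_eq' x
        have hZ0 : exp (2 * Real.pi * I * z) ≠ 0 := Complex.exp_ne_zero _
        have hQi : 1 < ‖q‖⁻¹ := (one_lt_inv₀ hqpos).2 hq1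
        obtain ⟨j₀, hj1, hj2⟩ := exists_mem_Ioc_zpow (norm_pos_iff.2 hZ0) hQi
        have hkey : ∃ (j : ℤ) (w : ℂ), w ∈ A ∧ exp (2 * Real.pi * I * z) = q ^ j * w := by
          set j : ℤ := -j₀ - 1 with hj
          set Y : ℂ := exp (2 * Real.pi * I * z) / q ^ j with hY
          have hqj : q ^ j ≠ 0 := zpow_ne_zero _ hq0
          have hY0 : Y ≠ 0 := div_ne_zero hZ0 hqj
          have hzY : exp (2 * Real.pi * I * z) = q ^ j * Y := by
            rw [hY]; field_simp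
          have hYpos : 0 < ‖Y‖ := norm_pos_iff.2 hY0
          have hYn : ‖exp (2 * Real.pi * I * z)‖ = ‖q‖ ^ j * ‖Y‖ := by
            rw [hzY, norm_mul, norm_zpow]
          have hQj : 0 < ‖q‖ ^ j := zpow_pos hqpos _
          have hY1 : ‖Y‖ ≤ 1 := by
            rw [hYn, inv_zpow, ← zpow_neg] at hj2
            have : -(j₀ + 1) = j := by rw [hj]; ring
            rw [this] at hj2
            by_contra hcon
            push Not at hcon
            nlinarith
          have hYq : ‖q‖ < ‖Y‖ := by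
            rw [hYn, inv_zpow, ← zpow_neg] at hj1
            have : -j₀ = j + 1 := by rw [hj]; ring
            rw [this, zpow_add_one₀ hqpos.ne'] at hj1
            exact lt_of_mul_lt_mul_left hj1 hQj.le
          by_cases hYr : ‖Y‖ < r
          · have hXr : r ≤ ‖q / Y‖ := by
              by_contra hcon
              push Not at hcon
              exact hx (hnode j τ z Y hτ hY0 hzY hYr hcon)
            refine ⟨j + 1, Y / q, ?_, ?_⟩
            · rw [norm_div, le_div_iff₀ hYpos] at hXr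
              refine ⟨?_, ?_⟩
              · rw [norm_div, le_div_iff₀ hqpos]
                nlinarith
              · rw [norm_div, div_le_div_iff₀ hqpos hr]
                nlinarith
            · rw [hzY, zpow_add_one₀ hq0]
              field_simp
          · push Not at hYr
            refine ⟨j, Y, ⟨by linarith, ?_⟩, hzY⟩
            refine hY1.trans ?_
            rw [le_div_iff₀ hr]
            linarith
        obtain ⟨j, w, hwA, hzw⟩ := hkey
        set κ : ℕ := (j % (N : ℤ)).toNat with hκ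
        have hmod0 : 0 ≤ j % (N : ℤ) := Int.emod_nonneg _ (by exact_mod_cast hNpos)
        have hmod1 : j % (N : ℤ) < N := Int.emod_lt_of_pos _ (by exact_mod_cast hNpos')
        have hκN : κ < N := by omega
        have hκj : (κ : ℤ) = j + N * (-(j / N)) := by
          have := Int.emod_add_mul_ediv j N
          have h2 : (κ : ℤ) = j % (N : ℤ) := by omega
          rw [h2]
          linarith
        have hz' : exp (2 * Real.pi * I * (z + ((-(j / (N : ℤ)) : ℤ) : ℂ) * τ + ((0 : ℤ) : ℂ)))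
            = q ^ (κ : ℤ) * w := by
          have e1 : 2 * Real.pi * I * (z + ((-(j / (N : ℤ)) : ℤ) : ℂ) * τ + ((0 : ℤ) : ℂ))
            = 2 * Real.pi * I * z + ((-(j / (N : ℤ)) : ℤ) : ℂ) * (2 * Real.pi * I * τ) := by
            push_cast
            ring
          rw [e1, Complex.exp_add, Complex.exp_int_mul, hqN, hzw, hκj, zpow_add₀ hq0, zpow_mul]
          ring
        have hμ' : D.μ (cout M c) (τ, z + ((-(j / (N : ℤ)) : ℤ) : ℂ) * τ + ((0 : ℤ) : ℂ))
            = scuNu D c κ q w :=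
          (hδq q hqn κ hκN).2 w hwA hq0 τ _ hτ rfl hz'
        have hpS : (⟨κ, w⟩ : Σ _ : ℕ, ℂ) ∈ S := by
          rw [hSm]
          refine ⟨hκN, hwA, ?_⟩
          show scuNu D c κ q w ≠ 0
          rw [← hμ', scu_period D _ τ z _ _ hτ]
          exact hx
        refine ⟨⟨κ, w⟩, hpS, ?_⟩
        rw [← hxz]
        show ((zz ⟨κ, w⟩ : ℂ) : ℂ ⧸ latt τ) = ((z : ℂ) : ℂ ⧸ latt τ)
        refine QuotientAddGroup.eq.2 ?_
        have he := hexpz ⟨κ, w⟩ (hA0 _ hwA)
        rw [← hz'] at he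
        obtain ⟨k, hk⟩ := Complex.exp_eq_exp_iff_exists_int.1 he
        have hk2 : zz ⟨κ, w⟩ = z + ((-(j / (N : ℤ)) : ℤ) : ℂ) * τ + ((0 : ℤ) : ℂ) + k := by
          apply mul_left_cancel₀ hpi
          rw [hk]
          ring
        refine ⟨-(-(j / (N : ℤ))), -k, ?_⟩
        rw [hk2]
        push_cast
        ring
    -- the sum
    have hs1 : sumF (D.μ (cout M c)) τ
        = ∑ᶠ x ∈ {x : ℂ ⧸ latt τ | D.μ (cout M c) (τ, Quotient.out x) ≠ 0},
          D.μ (cout M c) (τ, Quotient.out x) • x := by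
      unfold sumF
      rw [← finsum_mem_univ]
      refine finsum_mem_inter_support_eq _ _ _ ?_
      ext x
      simp only [Set.mem_inter_iff, Set.mem_univ, true_and, Function.mem_support,
        Set.mem_ofPred_eq, ne_eq]
      constructor
      · intro h
        refine ⟨?_, h⟩
        intro h0
        apply h
        rw [h0]
        exact zero_nsmul x
      · exact fun h => h.2
    have hs2 : ∑ᶠ p ∈ (S : Set (Σ _ : ℕ, ℂ)), scuNu D c p.1 q p.2 • Φ p
        = ∑ᶠ x ∈ {x : ℂ ⧸ latt τ | D.μ (cout M c) (τ, Quotient.out x) ≠ 0},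
          D.μ (cout M c) (τ, Quotient.out x) • x := by
      refine finsum_mem_eq_of_bijOn Φ hbij ?_
      intro p hp
      rw [hmu p hp]
    rw [hs1, ← hs2, finsum_mem_coe_finset]
    have hs3 : ∑ p ∈ S, scuNu D c p.1 q p.2 • Φ p
        = ((∑ p ∈ S, (scuNu D c p.1 q p.2 : ℂ) * zz p : ℂ) : ℂ ⧸ latt τ) := by
      have : ∀ p : (Σ _ : ℕ, ℂ), scuNu D c p.1 q p.2 • Φ p =
          QuotientAddGroup.mk' (latt τ) ((scuNu D c p.1 q p.2 : ℂ) * zz p) := by
        intro p
        rw [← nsmul_eq_mul, map_nsmul]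
        rfl
      rw [Finset.sum_congr rfl (fun p _ => this p), ← map_sum]
      rfl
    rw [hs3]
    congr 1
    rw [Finset.sum_sigma]
    have hs4 : ∀ κ ∈ Finset.range N, ∑ w ∈ F κ, (scuNu D c κ q w : ℂ) * zz ⟨κ, w⟩
        = (n κ : ℂ) * κ / N * τ + B κ q / (2 * Real.pi * I) := by
      intro κ hκ
      obtain ⟨-, h2, h3⟩ := hF κ (Finset.mem_range.1 hκ)
      have : ∀ w ∈ F κ, (scuNu D c κ q w : ℂ) * zz ⟨κ, w⟩
          = (scuNu D c κ q w : ℂ) * ((κ : ℂ) / N * τ)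
            + (scuNu D c κ q w : ℂ) * ℓ κ w / (2 * Real.pi * I) := by
        intro w _
        simp only [zz]
        ring
      rw [Finset.sum_congr rfl this, Finset.sum_add_distrib, ← Finset.sum_mul, ← Finset.sum_div,
        h3, ← Nat.cast_sum, h2]
      ring
    rw [Finset.sum_congr rfl hs4, Finset.sum_add_distrib]
    congr 1
    push_cast
    rw [Finset.sum_div, Finset.sum_mul]

end RicP
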