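import Pool.Agent.Helper88.Ric.Stmts

/-! Module SCU, part 1: clusters of zeros near a compact set of the special fibre. -/

set_option autoImplicit false

open scoped ContDiff Manifold Topology MatrixGroups
open Complex

noncomputable section

namespace RicP

lemma scu_analytic_slice (V : Set E) (hV : IsOpen V) (g : E → ℂ) (hg : DifferentiableOn ℂ g V)
    (q w : ℂ) (h : (q, w) ∈ V) : AnalyticAt ℂ (fun z => g (q, z)) w := by
  have hc : Continuous fun z : ℂ => ((q, z) : E) := by fun_prop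
  have hO : IsOpen ((fun z : ℂ => ((q, z) : E)) ⁻¹' V) := hV.preimage hc
  have hd : DifferentiableOn ℂ (fun z => g (q, z)) ((fun z : ℂ => ((q, z) : E)) ⁻¹' V) := by
    refine hg.comp (Differentiable.differentiableOn (by fun_prop)) ?_
    intro z hz
    exact hz
  exact hd.analyticAt (hO.mem_nhds h)

lemma scu_order_zero (f : ℂ → ℂ) (w : ℂ) (h : f w ≠ 0) : analyticOrderNatAt f w = 0 := by
  have : analyticOrderAt f w = 0 := analyticOrderAt_eq_zero.2 (Or.inr h)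
  simp [analyticOrderNatAt, this]

/-- the exceptional points of the special fibre are isolated -/
lemma scu_isol (ν : ℂ → ℂ → ℕ) (w₀ : ℂ)
    (hloc : ∃ V : Set E, IsOpen V ∧ ((0 : ℂ), w₀) ∈ V ∧ ∃ g : E → ℂ, DifferentiableOn ℂ g V ∧
      (∀ q w, (q, w) ∈ V → q ≠ 0 → ν q w = analyticOrderNatAt (fun z => g (q, z)) w) ∧
      analyticOrderAt (fun z => g (0, z)) w₀ ≠ ⊤) :
    ∀ᶠ w in 𝓝 w₀, w ≠ w₀ → ∀ᶠ p in 𝓝 ((0 : ℂ), w), p.1 ≠ 0 → ν p.1 p.2 = 0 := by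
  obtain ⟨V, hV, h0, g, hg, hν, hord⟩ := hloc
  have han := scu_analytic_slice V hV g hg 0 w₀ h0
  rcases han.eventually_eq_zero_or_eventually_ne_zero with h | h
  · exact absurd (analyticOrderAt_eq_top.2 h) hord
  · rw [eventually_nhdsWithin_iff] at h
    have hc : Continuous fun z : ℂ => (((0 : ℂ), z) : E) := by fun_prop
    have hVn : ∀ᶠ w in 𝓝 w₀, (((0 : ℂ), w) : E) ∈ V :=
      hc.continuousAt.eventually (hV.mem_nhds h0)
    filter_upwards [h, hVn] with w hw hwV hne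
    have hgw : g (0, w) ≠ 0 := hw hne
    have hcont : ContinuousAt g (0, w) :=
      (hg.differentiableAt (hV.mem_nhds hwV)).continuousAt
    filter_upwards [hcont.eventually_ne hgw, hV.mem_nhds hwV] with p hp1 hp2 hp3
    rw [hν p.1 p.2 hp2 hp3]
    exact scu_order_zero _ _ hp1

lemma scu_bad_finite (A : Set ℂ) (hA : IsCompact A) (ν : ℂ → ℂ → ℕ)
    (hloc : ∀ w₀ ∈ A, ∃ V : Set E, IsOpen V ∧ ((0 : ℂ), w₀) ∈ V ∧ ∃ g : E → ℂ,
      DifferentiableOn ℂ g V ∧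
      (∀ q w, (q, w) ∈ V → q ≠ 0 → ν q w = analyticOrderNatAt (fun z => g (q, z)) w) ∧
      analyticOrderAt (fun z => g (0, z)) w₀ ≠ ⊤) :
    {w | w ∈ A ∧ ¬ ∀ᶠ p in 𝓝 ((0 : ℂ), w), p.1 ≠ 0 → ν p.1 p.2 = 0}.Finite := by
  obtain ⟨t, ht, hcov⟩ := hA.elim_nhds_subcover
    (fun w₀ => {w | w ≠ w₀ → ∀ᶠ p : ℂ × ℂ in 𝓝 ((0 : ℂ), w), p.1 ≠ 0 → ν p.1 p.2 = 0})
    (fun w₀ hw₀ => scu_isol ν w₀ (hloc w₀ hw₀))
  refine t.finite_toSet.subset ?_
  rintro w ⟨hwA, hw⟩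
  have := hcov hwA
  simp only [Set.mem_iUnion, Set.mem_ofPred_eq, exists_prop] at this
  obtain ⟨w₀, hw₀, h⟩ := this
  by_cases hh : w = w₀
  · rw [hh]; exact hw₀
  · exact absurd (h hh) hw

lemma scu_cluster (hCL : ST_CL) (A : Set ℂ) (hA : IsCompact A) (hA0 : ∀ w ∈ A, w ≠ 0)
    (ν : ℂ → ℂ → ℕ)
    (hloc : ∀ w₀ ∈ A, ∃ V : Set E, IsOpen V ∧ ((0 : ℂ), w₀) ∈ V ∧ ∃ g : E → ℂ,
      DifferentiableOn ℂ g V ∧
      (∀ q w, (q, w) ∈ V → q ≠ 0 → ν q w = analyticOrderNatAt (fun z => g (q, z)) w) ∧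
      analyticOrderAt (fun z => g (0, z)) w₀ ≠ ⊤)
    (hbd : ∀ w₀ ∈ A, w₀ ∉ interior A → ∀ᶠ p in 𝓝 ((0 : ℂ), w₀), p.1 ≠ 0 → ν p.1 p.2 = 0) :
    ∃ δ > 0, ∃ n : ℕ, ∃ B ℓ : ℂ → ℂ, (∀ w, w ≠ 0 → exp (ℓ w) = w) ∧
      DifferentiableOn ℂ B (Metric.ball 0 δ) ∧
      ∀ q ∈ Metric.ball (0 : ℂ) δ, q ≠ 0 → ∃ F : Finset ℂ, (∀ w, w ∈ F ↔ w ∈ A ∧ ν q w ≠ 0) ∧
        ∑ w ∈ F, ν q w = n ∧ ∑ w ∈ F, (ν q w : ℂ) * ℓ w = B q := by
  classical
  set Bad : Set ℂ := {w | w ∈ A ∧ ¬ ∀ᶠ p in 𝓝 ((0 : ℂ), w), p.1 ≠ 0 → ν p.1 p.2 = 0} with hBad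
  have hBf : Bad.Finite := scu_bad_finite A hA ν hloc
  have hBA : ∀ b ∈ Bad, b ∈ A := fun b hb => hb.1
  have hBi : ∀ b ∈ Bad, b ∈ interior A := by
    intro b hb
    by_contra hcon
    exact hb.2 (hbd b hb.1 hcon)
  -- local functions
  have hloc' : ∀ b : ℂ, ∃ V : Set E, ∃ g : E → ℂ, b ∈ Bad → (IsOpen V ∧ ((0 : ℂ), b) ∈ V ∧
      DifferentiableOn ℂ g V ∧
      (∀ q w, (q, w) ∈ V → q ≠ 0 → ν q w = analyticOrderNatAt (fun z => g (q, z)) w) ∧
      analyticOrderAt (fun z => g (0, z)) b ≠ ⊤ ∧ ∀ p ∈ V, p.2 ∈ Metric.ball b ‖b‖) := by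
    intro b
    by_cases hb : b ∈ Bad
    · obtain ⟨V, hV, h0, g, hg, hν, hord⟩ := hloc b (hBA b hb)
      refine ⟨V ∩ {p | p.2 ∈ Metric.ball b ‖b‖}, g, fun _ => ⟨?_, ?_, ?_, ?_, hord, ?_⟩⟩
      · exact hV.inter (Metric.isOpen_ball.preimage continuous_snd)
      · refine ⟨h0, ?_⟩
        have : 0 < ‖b‖ := norm_pos_iff.2 (hA0 b (hBA b hb))
        exact Metric.mem_ball_self this
      · exact hg.mono Set.inter_subset_left
      · intro q w hqw hq
        exact hν q w hqw.1 hq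
      · intro p hp
        exact hp.2
    · exact ⟨∅, 0, fun h => absurd h hb⟩
  choose V g hVg using hloc'
  -- radius
  have hrad : ∃ ρ > 0, ∀ b ∈ Bad, (Metric.ball b ρ ⊆ A ∧ (∀ b' ∈ Bad, b' ≠ b →
      Disjoint (Metric.ball b ρ) (Metric.ball b' ρ)) ∧
      ∃ δ > 0,
        (∀ s ∈ Metric.ball (0 : ℂ) δ, ∀ z ∈ Metric.closedBall b ρ, (s, z) ∈ V b) ∧
        (∀ s ∈ Metric.ball (0 : ℂ) δ, ∀ z ∈ Metric.sphere b ρ, g b (s, z) ≠ 0) ∧
        (∀ s ∈ Metric.ball (0 : ℂ) δ, {z | z ∈ Metric.ball b ρ ∧ g b (s, z) = 0}.Finite) ∧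
        (∀ s ∈ Metric.ball (0 : ℂ) δ,
          ∑ᶠ z ∈ Metric.ball b ρ, analyticOrderNatAt (fun w => g b (s, w)) z
            = analyticOrderNatAt (fun w => g b (0, w)) b) ∧
        (∀ u : E → ℂ, DifferentiableOn ℂ u (V b) → DifferentiableOn ℂ (fun s =>
          ∑ᶠ z ∈ Metric.ball b ρ, (analyticOrderNatAt (fun w => g b (s, w)) z : ℂ) * u (s, z))
          (Metric.ball 0 δ))) := by
    have hev : ∀ᶠ ρ in 𝓝[>] (0 : ℝ), ∀ b ∈ Bad, (Metric.ball b ρ ⊆ A ∧ (∀ b' ∈ Bad, b' ≠ b →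
      Disjoint (Metric.ball b ρ) (Metric.ball b' ρ)) ∧
      ∃ δ > 0,
        (∀ s ∈ Metric.ball (0 : ℂ) δ, ∀ z ∈ Metric.closedBall b ρ, (s, z) ∈ V b) ∧
        (∀ s ∈ Metric.ball (0 : ℂ) δ, ∀ z ∈ Metric.sphere b ρ, g b (s, z) ≠ 0) ∧
        (∀ s ∈ Metric.ball (0 : ℂ) δ, {z | z ∈ Metric.ball b ρ ∧ g b (s, z) = 0}.Finite) ∧
        (∀ s ∈ Metric.ball (0 : ℂ) δ,
          ∑ᶠ z ∈ Metric.ball b ρ, analyticOrderNatAt (fun w => g b (s, w)) z
            = analyticOrderNatAt (fun w => g b (0, w)) b) ∧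
        (∀ u : E → ℂ, DifferentiableOn ℂ u (V b) → DifferentiableOn ℂ (fun s =>
          ∑ᶠ z ∈ Metric.ball b ρ, (analyticOrderNatAt (fun w => g b (s, w)) z : ℂ) * u (s, z))
          (Metric.ball 0 δ))) := by
      rw [Filter.eventually_all_finite hBf]
      intro b hb
      obtain ⟨hV, h0, hg, hν, hord, -⟩ := hVg b hb
      obtain ⟨ρ₀, hρ₀, hcl⟩ := hCL (V b) (g b) 0 b hV h0 hg hord
      have e1 : ∀ᶠ ρ in 𝓝[>] (0 : ℝ), Metric.ball b ρ ⊆ A := by
        obtain ⟨r, hr, hrA⟩ := Metric.isOpen_iff.1 isOpen_interior b (hBi b hb)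
        filter_upwards [Ioo_mem_nhdsGT hr] with ρ hρ
        exact (Metric.ball_subset_ball hρ.2.le).trans (hrA.trans interior_subset)
      have e2 : ∀ᶠ ρ in 𝓝[>] (0 : ℝ), ∀ b' ∈ Bad, b' ≠ b →
          Disjoint (Metric.ball b ρ) (Metric.ball b' ρ) := by
        rw [Filter.eventually_all_finite hBf]
        intro b' hb'
        by_cases hne : b' = b
        · filter_upwards with ρ h
          exact absurd hne h
        · have hd : 0 < dist b b' / 2 := by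
            have := dist_pos.2 (Ne.symm hne)
            linarith
          filter_upwards [Ioo_mem_nhdsGT hd] with ρ hρ _
          apply Metric.ball_disjoint_ball
          linarith [hρ.2]
      filter_upwards [e1, e2, Ioo_mem_nhdsGT hρ₀] with ρ h1 h2 h3
      exact ⟨h1, h2, hcl ρ h3.1 h3.2.le⟩
    obtain ⟨ρ, hρ1, hρ2⟩ := (hev.and self_mem_nhdsWithin).exists
    exact ⟨ρ, hρ2, hρ1⟩
  obtain ⟨ρ, hρ, hrad⟩ := hrad
  -- the set where the special fibre has no zeros nearby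
  have hA'c : IsCompact (A \ ⋃ b ∈ Bad, Metric.ball b ρ) :=
    hA.diff (isOpen_biUnion fun b _ => Metric.isOpen_ball)
  have htube : ∀ᶠ q in 𝓝 (0 : ℂ), ∀ w ∈ A \ ⋃ b ∈ Bad, Metric.ball b ρ, q ≠ 0 → ν q w = 0 := by
    refine hA'c.eventually_forall_of_forall_eventually (P := fun q w => q ≠ 0 → ν q w = 0) ?_
    intro w hw
    by_contra hcon
    have : w ∈ Bad := ⟨hw.1, hcon⟩
    exact hw.2 (Set.mem_biUnion this (Metric.mem_ball_self hρ))
  -- choose δ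
  have hδ : ∃ δ > 0, (∀ q ∈ Metric.ball (0 : ℂ) δ, ∀ w ∈ A \ ⋃ b ∈ Bad, Metric.ball b ρ,
      q ≠ 0 → ν q w = 0) ∧ ∀ b ∈ Bad,
        (∀ s ∈ Metric.ball (0 : ℂ) δ, ∀ z ∈ Metric.closedBall b ρ, (s, z) ∈ V b) ∧
        (∀ s ∈ Metric.ball (0 : ℂ) δ, {z | z ∈ Metric.ball b ρ ∧ g b (s, z) = 0}.Finite) ∧
        (∀ s ∈ Metric.ball (0 : ℂ) δ,
          ∑ᶠ z ∈ Metric.ball b ρ, analyticOrderNatAt (fun w => g b (s, w)) z
            = analyticOrderNatAt (fun w => g b (0, w)) b) ∧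
        (∀ u : E → ℂ, DifferentiableOn ℂ u (V b) → DifferentiableOn ℂ (fun s =>
          ∑ᶠ z ∈ Metric.ball b ρ, (analyticOrderNatAt (fun w => g b (s, w)) z : ℂ) * u (s, z))
          (Metric.ball 0 δ)) := by
    obtain ⟨δ₁, hδ₁, ht⟩ := Metric.eventually_nhds_iff_ball.1 htube
    have hev : ∀ᶠ δ in 𝓝[>] (0 : ℝ), ∀ b ∈ Bad,
        (∀ s ∈ Metric.ball (0 : ℂ) δ, ∀ z ∈ Metric.closedBall b ρ, (s, z) ∈ V b) ∧
        (∀ s ∈ Metric.ball (0 : ℂ) δ, {z | z ∈ Metric.ball b ρ ∧ g b (s, z) = 0}.Finite) ∧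
        (∀ s ∈ Metric.ball (0 : ℂ) δ,
          ∑ᶠ z ∈ Metric.ball b ρ, analyticOrderNatAt (fun w => g b (s, w)) z
            = analyticOrderNatAt (fun w => g b (0, w)) b) ∧
        (∀ u : E → ℂ, DifferentiableOn ℂ u (V b) → DifferentiableOn ℂ (fun s =>
          ∑ᶠ z ∈ Metric.ball b ρ, (analyticOrderNatAt (fun w => g b (s, w)) z : ℂ) * u (s, z))
          (Metric.ball 0 δ)) := by
      rw [Filter.eventually_all_finite hBf]
      intro b hb
      obtain ⟨-, -, δb, hδb, h1, -, h3, h4, h5⟩ := hrad b hb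
      filter_upwards [Ioo_mem_nhdsGT hδb] with δ hδ
      have hsub : Metric.ball (0 : ℂ) δ ⊆ Metric.ball 0 δb := Metric.ball_subset_ball hδ.2.le
      exact ⟨fun s hs => h1 s (hsub hs), fun s hs => h3 s (hsub hs), fun s hs => h4 s (hsub hs),
        fun u hu => (h5 u hu).mono hsub⟩
    obtain ⟨δ, hd1, hd2⟩ := (hev.and (Ioo_mem_nhdsGT hδ₁)).exists
    exact ⟨δ, hd2.1, fun q hq => ht q (Metric.ball_subset_ball hd2.2.le hq), hd1⟩
  obtain ⟨δ, hδ, htu, hdat⟩ := hδ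
  -- branch of the logarithm
  let ℓ : ℂ → ℂ := fun w => if h : ∃ b ∈ Bad, w ∈ Metric.ball b ρ then
    Complex.log (w / h.choose) + Complex.log h.choose else Complex.log w
  have hℓb : ∀ b ∈ Bad, ∀ w ∈ Metric.ball b ρ, ℓ w = Complex.log (w / b) + Complex.log b := by
    intro b hb w hw
    have h : ∃ b ∈ Bad, w ∈ Metric.ball b ρ := ⟨b, hb, hw⟩
    have hch : h.choose = b := by
      by_contra hne
      exact Set.disjoint_left.1 ((hrad b hb).2.1 h.choose h.choose_spec.1 hne) hw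
        h.choose_spec.2
    simp only [ℓ, dif_pos h, hch]
  have hℓ : ∀ w, w ≠ 0 → exp (ℓ w) = w := by
    intro w hw
    by_cases h : ∃ b ∈ Bad, w ∈ Metric.ball b ρ
    · obtain ⟨b, hb, hwb⟩ := h
      have hb0 : b ≠ 0 := hA0 b (hBA b hb)
      rw [hℓb b hb w hwb, Complex.exp_add, Complex.exp_log (div_ne_zero hw hb0),
        Complex.exp_log hb0]
      field_simp
    · simp only [ℓ, dif_neg h]
      exact Complex.exp_log hw
  refine ⟨δ, hδ, ∑ b ∈ hBf.toFinset, analyticOrderNatAt (fun w => g b (0, w)) b,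
    fun s => ∑ b ∈ hBf.toFinset, ∑ᶠ z ∈ Metric.ball b ρ,
      (analyticOrderNatAt (fun w => g b (s, w)) z : ℂ) * (Complex.log (z / b) + Complex.log b),
    ℓ, hℓ, ?_, ?_⟩
  · refine DifferentiableOn.fun_sum ?_
    intro b hb
    have hb : b ∈ Bad := by simpa using hb
    refine (hdat b hb).2.2.2 (fun p => Complex.log (p.2 / b) + Complex.log b) ?_
    intro p hp
    have hpb := (hVg b hb).2.2.2.2.2 p hp
    have hb0 : b ≠ 0 := hA0 b (hBA b hb)
    refine DifferentiableAt.differentiableWithinAt ?_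
    refine DifferentiableAt.add_const _ ?_
    refine DifferentiableAt.clog (by fun_prop (disch := assumption)) ?_
    apply Complex.ball_one_subset_slitPlane
    rw [Metric.mem_ball, dist_eq_norm] at hpb ⊢
    have : p.2 / b - 1 = (p.2 - b) / b := by field_simp
    rw [this, norm_div, div_lt_one (norm_pos_iff.2 hb0)]
    exact hpb
  · intro q hq hq0
    have hνb : ∀ b ∈ Bad, ∀ w ∈ Metric.ball b ρ,
        ν q w = analyticOrderNatAt (fun z => g b (q, z)) w := by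
      intro b hb w hw
      exact (hVg b hb).2.2.2.1 q w ((hdat b hb).1 q hq w (Metric.ball_subset_closedBall hw)) hq0
    have hTf : ∀ b ∈ Bad, {w | w ∈ Metric.ball b ρ ∧ ν q w ≠ 0}.Finite := by
      intro b hb
      refine ((hdat b hb).2.1 q hq).subset ?_
      rintro w ⟨hw, hw0⟩
      refine ⟨hw, ?_⟩
      rw [hνb b hb w hw] at hw0
      exact apply_eq_zero_of_analyticOrderNatAt_ne_zero (f := fun z => g b (q, z)) hw0
    have hUeq : {w | w ∈ A ∧ ν q w ≠ 0} = ⋃ b ∈ Bad, {w | w ∈ Metric.ball b ρ ∧ ν q w ≠ 0} := by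
      ext w
      simp only [Set.mem_ofPred_eq, Set.mem_iUnion, exists_prop]
      constructor
      · rintro ⟨hwA, hw0⟩
        by_contra hcon
        apply hw0
        refine htu q hq w ⟨hwA, ?_⟩ hq0
        intro hmem
        simp only [Set.mem_iUnion, exists_prop] at hmem
        obtain ⟨b, hb, hwb⟩ := hmem
        exact hcon ⟨b, hb, hwb, hw0⟩
      · rintro ⟨b, hb, hwb, hw0⟩
        exact ⟨(hrad b hb).1 hwb, hw0⟩
    have hFf : {w | w ∈ A ∧ ν q w ≠ 0}.Finite := by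
      rw [hUeq]
      exact hBf.biUnion hTf
    have hdisj : Bad.PairwiseDisjoint (fun b => {w | w ∈ Metric.ball b ρ ∧ ν q w ≠ 0}) := by
      intro b hb b' hb' hne
      refine Set.disjoint_left.2 ?_
      rintro w ⟨h1, -⟩ ⟨h2, -⟩
      exact Set.disjoint_left.1 ((hrad b hb).2.1 b' hb' (Ne.symm hne)) h1 h2
    refine ⟨hFf.toFinset, fun w => by simp, ?_, ?_⟩
    · rw [← finsum_mem_eq_finite_toFinset_sum _ hFf, hUeq,
        finsum_mem_biUnion hdisj hBf hTf, finsum_mem_eq_finite_toFinset_sum _ hBf]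
      refine Finset.sum_congr rfl ?_
      intro b hb
      have hb : b ∈ Bad := by simpa using hb
      rw [← (hdat b hb).2.2.1 q hq]
      have h1 : ∑ᶠ w ∈ Metric.ball b ρ, analyticOrderNatAt (fun z => g b (q, z)) w =
          ∑ᶠ w ∈ Metric.ball b ρ, ν q w :=
        finsum_mem_congr rfl (fun w hw => (hνb b hb w hw).symm)
      rw [h1]
      refine finsum_mem_inter_support_eq _ _ _ ?_
      ext w
      simp only [Set.mem_inter_iff, Set.mem_ofPred_eq, Function.mem_support]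
      tauto
    · rw [← finsum_mem_eq_finite_toFinset_sum _ hFf, hUeq,
        finsum_mem_biUnion hdisj hBf hTf, finsum_mem_eq_finite_toFinset_sum _ hBf]
      refine Finset.sum_congr rfl ?_
      intro b hb
      have hb : b ∈ Bad := by simpa using hb
      have h1 : ∑ᶠ z ∈ Metric.ball b ρ,
          (analyticOrderNatAt (fun w => g b (q, w)) z : ℂ) * (Complex.log (z / b) + Complex.log b)
          = ∑ᶠ w ∈ Metric.ball b ρ, (ν q w : ℂ) * ℓ w :=
        finsum_mem_congr rfl (fun w hw => by rw [hνb b hb w hw, hℓb b hb w hw])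
      rw [h1]
      refine finsum_mem_inter_support_eq _ _ _ ?_
      ext w
      simp only [Set.mem_inter_iff, Set.mem_ofPred_eq, Function.mem_support]
      constructor
      · rintro ⟨⟨h1, h2⟩, h3⟩
        exact ⟨h1, h3⟩
      · rintro ⟨h1, h3⟩
        refine ⟨⟨h1, ?_⟩, h3⟩
        intro h0
        apply h3
        rw [h0]
        simp

end RicP
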