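import Pool.Agent.Helper68.Ric.SCUa

/-! Module SCU, part 2: local equations near the special fibre. -/

set_option autoImplicit false

open scoped ContDiff Manifold Topology MatrixGroups
open Complex

noncomputable section

namespace RicP

variable {M : ModData} {N : ℕ} {t : ℝ}

lemma scu_period (D : DivData M N t) (q : QN M N) (τ z : ℂ) (a b : ℤ) (hτ : 0 < τ.im) :
    D.μ q (τ, z + a * τ + b) = D.μ q (τ, z) := by
  refine (D.inv q q (τ, z) (τ, z + a * τ + b) hτ ?_).symm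
  refine ⟨1, a, b, by simp, by simp [mob], ?_⟩
  simp [jj]
  ring

lemma scu_out (D : DivData M N t) (q : QN M N) (τ z : ℂ) (hτ : 0 < τ.im) :
    D.μ q (τ, Quotient.out ((z : ℂ) : ℂ ⧸ latt τ)) = D.μ q (τ, z) := by
  obtain ⟨h, hh⟩ := QuotientAddGroup.mk_out_eq_add (latt τ) z
  obtain ⟨m, n, hmn⟩ := h.2
  have h2 : Quotient.out ((z : ℂ) : ℂ ⧸ latt τ) = z + m * τ + n := by
    rw [hh, hmn]
    ring
  rw [h2]
  exact scu_period D q τ z m n hτ

lemma scu_comp (f : ℂ → ℂ) (w : ℂ) (hw : w ≠ 0) :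
    analyticOrderNatAt (fun s : ℂ => f (w * exp (2 * Real.pi * I * s))) 0
      = analyticOrderNatAt f w := by
  have hg : AnalyticAt ℂ (fun s : ℂ => w * exp (2 * Real.pi * I * s)) 0 := by fun_prop
  have hd : HasDerivAt (fun s : ℂ => w * exp (2 * Real.pi * I * s))
      (w * (exp (2 * Real.pi * I * 0) * (2 * Real.pi * I))) 0 := by
    have h1 : HasDerivAt (fun s : ℂ => 2 * Real.pi * I * s) (2 * Real.pi * I) 0 := by
      simpa using (hasDerivAt_id (0 : ℂ)).const_mul (2 * Real.pi * I)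
    exact (h1.cexp).const_mul w
  have hd0 : deriv (fun s : ℂ => w * exp (2 * Real.pi * I * s)) 0 ≠ 0 := by
    rw [hd.deriv]
    have := Complex.two_pi_I_ne_zero
    simp only [mul_zero, Complex.exp_zero, one_mul]
    exact mul_ne_zero hw this
  have := analyticOrderAt_comp_of_deriv_ne_zero (f := f) hg hd0
  simp only [mul_zero, Complex.exp_zero, mul_one] at this
  unfold analyticOrderNatAt
  rw [← this]
  rfl

/-- passage to the node chart -/
lemma scu_D0 (hN : NOK N) (D : DivData M N t) (c : Cusp M N) (τ z : ℂ) (hτ : 0 < τ.im)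
    (p : E) (j : ℤ) (h1 : exp (2 * Real.pi * I * τ / N) = p.1 * p.2)
    (h2 : exp (2 * Real.pi * I * z) = p.2 * exp (2 * Real.pi * I * τ / N) ^ j) :
    ∃ x₀, D0 ((j : ℤ) : ZMod N) p x₀ ∧ D.μ (cout M c) (τ, z) = D.μ (cout M c) x₀ := by
  have hN0 : (N : ℂ) ≠ 0 := by
    have := hN.2
    exact_mod_cast (by omega : N ≠ 0)
  have : NeZero N := ⟨by have := hN.2; omega⟩
  refine ⟨(τ, z + ((-(j / (N : ℤ)) : ℤ) : ℂ) * τ + ((0 : ℤ) : ℂ)), ⟨hτ, h1, ?_⟩, ?_⟩
  · show exp (2 * Real.pi * I * (z + ((-(j / (N : ℤ)) : ℤ) : ℂ) * τ + ((0 : ℤ) : ℂ)))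
      = p.2 * (p.1 * p.2) ^ ((j : ZMod N)).val
    have e1 : (2 * Real.pi * I * (z + ((-(j / (N : ℤ)) : ℤ) : ℂ) * τ + ((0 : ℤ) : ℂ)))
        = 2 * Real.pi * I * z + ((-((N : ℤ) * (j / (N : ℤ))) : ℤ) : ℂ) *
          (2 * Real.pi * I * τ / N) := by
      push_cast
      field_simp
      ring
    rw [e1, Complex.exp_add, Complex.exp_int_mul, h2, ← h1, mul_assoc,
      ← zpow_add₀ (Complex.exp_ne_zero _)]
    have e2 : j + -((N : ℤ) * (j / (N : ℤ))) = (((j : ZMod N)).val : ℤ) := by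
      rw [ZMod.val_intCast]
      have := Int.emod_add_mul_ediv j N
      linarith
    rw [e2, zpow_natCast]
  · exact (scu_period D _ τ z _ _ hτ).symm

/-- local equation near a point of the special fibre, in the coordinates `q, w` -/
lemma scu_local (hN : NOK N) (D : DivData M N t) (c : Cusp M N) (κ : ℤ) (w₀ : ℂ) (hw₀ : w₀ ≠ 0) :
    ∃ V : Set E, IsOpen V ∧ ((0 : ℂ), w₀) ∈ V ∧ ∃ g : E → ℂ, DifferentiableOn ℂ g V ∧
      (∀ q w, (q, w) ∈ V → w ≠ 0 ∧ ∀ τ z : ℂ, 0 < τ.im → exp (2 * Real.pi * I * τ / N) = q →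
        exp (2 * Real.pi * I * z) = q ^ κ * w →
        D.μ (cout M c) (τ, z) = analyticOrderNatAt (fun z => g (q, z)) w) ∧
      analyticOrderAt (fun z => g (0, z)) w₀ ≠ ⊤ := by
  rcases le_total ‖w₀‖ 1 with hle | hge
  · obtain ⟨V₀, hV₀, h0, G, hG, hμ, -, -, hord⟩ := D.cusp c ((κ : ℤ) : ZMod N) (0, w₀)
      (by simp) hle (by simp)
    have hco : ContinuousOn (fun p : E => (p.1 / p.2, p.2)) {p | p.2 ≠ 0} := by
      refine ContinuousOn.prodMk ?_ (by fun_prop)
      exact ContinuousOn.div (by fun_prop) (by fun_prop) (fun p hp => hp)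
    have hO : IsOpen {p : E | p.2 ≠ 0} := isOpen_ne_fun (by fun_prop) (by fun_prop)
    refine ⟨{p : E | p.2 ≠ 0} ∩ (fun p : E => (p.1 / p.2, p.2)) ⁻¹' V₀,
      hco.isOpen_inter_preimage hO hV₀, ⟨hw₀, by simpa using h0⟩,
      fun p => G (p.1 / p.2, p.2), ?_, ?_, ?_⟩
    · refine hG.comp ?_ (fun p hp => hp.2)
      intro p hp
      have hp2 : p.2 ≠ 0 := hp.1
      refine DifferentiableAt.differentiableWithinAt (𝕜 := ℂ) ?_
      have h1 : DifferentiableAt ℂ (fun p : E => p.1 / p.2) p := by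
        simp only [div_eq_mul_inv]
        exact differentiableAt_fst.mul (differentiableAt_snd.fun_inv hp2)
      exact DifferentiableAt.prodMk h1 differentiableAt_snd
    · rintro q w ⟨hw, hV⟩
      have hw : w ≠ 0 := hw
      refine ⟨hw, ?_⟩
      intro τ z hτ hq hz
      obtain ⟨x₀, hx₀, hx₁⟩ := scu_D0 hN D c τ z hτ (q / w, w) κ (by simp only; rw [hq]; field_simp)
        (by simp only; rw [hz, hq]; ring)
      rw [hx₁, hμ (q / w, w) hV x₀ hx₀, ← scu_comp (fun z => G (q / z, z)) w hw]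
      congr 1
      funext s
      congr 2
      simp only
      rw [Complex.exp_neg]
      field_simp
    · have := hord rfl
      simpa using this
  · have hX : ‖(1 / w₀ : ℂ)‖ ≤ 1 := by
      rw [norm_div, norm_one]
      exact div_le_one_of_le₀ hge (norm_nonneg _)
    obtain ⟨V₀, hV₀, h0, G, hG, hμ, -, hord, -⟩ := D.cusp c ((κ - 1 : ℤ) : ZMod N) (1 / w₀, 0)
      hX (by simp) (by simp)
    have hco : ContinuousOn (fun p : E => (1 / p.2, p.1 * p.2)) {p | p.2 ≠ 0} := by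
      refine ContinuousOn.prodMk ?_ (by fun_prop)
      exact ContinuousOn.div (by fun_prop) (by fun_prop) (fun p hp => hp)
    have hO : IsOpen {p : E | p.2 ≠ 0} := isOpen_ne_fun (by fun_prop) (by fun_prop)
    refine ⟨{p : E | p.2 ≠ 0} ∩ (fun p : E => (1 / p.2, p.1 * p.2)) ⁻¹' V₀,
      hco.isOpen_inter_preimage hO hV₀, ⟨hw₀, by simpa using h0⟩,
      fun p => G (1 / p.2, p.1 * p.2), ?_, ?_, ?_⟩
    · refine hG.comp ?_ (fun p hp => hp.2)
      intro p hp
      have hp2 : p.2 ≠ 0 := hp.1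
      refine DifferentiableAt.differentiableWithinAt (𝕜 := ℂ) ?_
      have h1 : DifferentiableAt ℂ (fun p : E => 1 / p.2) p := by
        simp only [one_div]
        exact differentiableAt_snd.fun_inv hp2
      exact DifferentiableAt.prodMk h1 (differentiableAt_fst.mul differentiableAt_snd)
    · rintro q w ⟨hw, hV⟩
      have hw : w ≠ 0 := hw
      refine ⟨hw, ?_⟩
      intro τ z hτ hq hz
      have hq0 : q ≠ 0 := by rw [← hq]; exact Complex.exp_ne_zero _
      obtain ⟨x₀, hx₀, hx₁⟩ := scu_D0 hN D c τ z hτ (1 / w, q * w) (κ - 1)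
        (by simp only; rw [hq]; field_simp)
        (by simp only; rw [hz, hq, zpow_sub_one₀ hq0]; field_simp)
      rw [hx₁, hμ (1 / w, q * w) hV x₀ hx₀, ← scu_comp (fun z => G (1 / z, q * z)) w hw]
      congr 1
      funext s
      congr 2
      · simp only
        rw [Complex.exp_neg]
        field_simp
      · simp only
        ring
    · have h1 := hord rfl
      have h2 : AnalyticAt ℂ (fun w : ℂ => 1 / w) w₀ := by
        fun_prop (disch := assumption)
      have h3 : deriv (fun w : ℂ => 1 / w) w₀ ≠ 0 := by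
        simp only [one_div, deriv_inv]
        simp [hw₀]
      have h4 := analyticOrderAt_comp_of_deriv_ne_zero (f := fun X => G (X, 0)) h2 h3
      simp only at h1
      rw [← h4] at h1
      simp only [zero_mul]
      exact h1

/-- no zeros near the nodes -/
lemma scu_node (hN : NOK N) (D : DivData M N t) (c : Cusp M N) :
    ∃ r > 0, r < 1 ∧ ∀ (j : ℤ) (τ z Y : ℂ), 0 < τ.im → Y ≠ 0 →
      exp (2 * Real.pi * I * z) = exp (2 * Real.pi * I * τ / N) ^ j * Y → ‖Y‖ < r →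
      ‖exp (2 * Real.pi * I * τ / N) / Y‖ < r → D.μ (cout M c) (τ, z) = 0 := by
  have : NeZero N := ⟨by have := hN.2; omega⟩
  have h : ∀ᶠ r in 𝓝[>] (0 : ℝ), ∀ k : ZMod N, ∀ p : E, ‖p.1‖ < r → ‖p.2‖ < r → ∀ x₀, D0 k p x₀ →
      D.μ (cout M c) x₀ = 0 := by
    rw [Filter.eventually_all]
    intro k
    obtain ⟨V₀, hV₀, h0, G, hG, hμ, hne, -, -⟩ := D.cusp c k (0, 0) (by simp) (by simp) (by simp)
    have hne := hne (Or.inr (Or.inr rfl))
    have hcont : ContinuousAt G ((0, 0) : E) :=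
      (hG.differentiableAt (hV₀.mem_nhds h0)).continuousAt
    obtain ⟨r, hr, hball⟩ := Metric.eventually_nhds_iff_ball.1
      ((hcont.eventually_ne hne).and (hV₀.mem_nhds h0))
    filter_upwards [Ioo_mem_nhdsGT hr] with r' hr' p hp1 hp2 x₀ hx₀
    have hmem : p ∈ Metric.ball ((0, 0) : E) r := by
      rw [Metric.mem_ball, dist_eq_norm, Prod.norm_def]
      simp only [Prod.fst_sub, Prod.snd_sub, sub_zero]
      exact max_lt (hp1.trans hr'.2) (hp2.trans hr'.2)
    rw [hμ p (hball p hmem).2 x₀ hx₀]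
    apply scu_order_zero
    simpa using (hball p hmem).1
  obtain ⟨r, h1, h2⟩ := (h.and (Ioo_mem_nhdsGT one_pos)).exists
  refine ⟨r, h2.1, h2.2, ?_⟩
  intro j τ z Y hτ hY hz hYr hXr
  obtain ⟨x₀, hx₀, hx₁⟩ := scu_D0 hN D c τ z hτ (exp (2 * Real.pi * I * τ / N) / Y, Y) j
    (by simp only; field_simp) (by simp only; rw [hz]; ring)
  rw [hx₁]
  exact h1 _ _ hXr hYr x₀ hx₀

end RicP
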